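import Pool.Agent.Helper7.KT.St

/-!
# Project KT, module WGT: the weights
-/

set_option autoImplicit false

namespace Pool.Agent.Helper4.KT

open Finset SimpleGraph Filter Topology
open EX Pool.Agent.Helper7.KT

open scoped Classical

/-- Every pair is served by at most `N` vertices. -/
theorem aa_pp_le (hCDR : StCDR) {V : Type} [Fintype V] (N : ℕ) (H : Finset (Finset V))
    (hH : ∀ E ∈ H, E.card = 3) (C : Finset V) (P : V → V → Prop) (u v : V) :
    (aa (rg N H) H C u v).card + (pp (rg N H) H P u v).card ≤ N := by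
  by_cases huv : u = v
  · have h1 : aa (rg N H) H C u v = ∅ := by
      ext z
      simp only [aa, mem_filter, notMem_empty, iff_false]
      exact fun h => h.2.1.1 huv
    have h2 : pp (rg N H) H P u v = ∅ := by
      ext z
      simp only [pp, mem_filter, notMem_empty, iff_false]
      exact fun h => h.2.2.1.1 huv
    rw [h1, h2]
    simp
  by_cases hadj : (rg N H).Adj u v
  · have h1 : aa (rg N H) H C u v = ∅ := by
      ext z
      simp only [aa, mem_filter, notMem_empty, iff_false]
      exact fun h => h.2.2.2.2 hadj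
    have h2 : pp (rg N H) H P u v = ∅ := by
      ext z
      simp only [pp, mem_filter, notMem_empty, iff_false]
      exact fun h => h.2.2.2.1 hadj
    rw [h1, h2]
    simp
  have hdis : Disjoint (aa (rg N H) H C u v) (pp (rg N H) H P u v) := by
    rw [Finset.disjoint_left]
    intro z hz hz'
    simp only [aa, mem_filter] at hz
    simp only [pp, mem_filter] at hz'
    exact hz'.2.2.2.2 hz.2.2.1.symm
  rw [← card_union_of_disjoint hdis]
  have hsub : aa (rg N H) H C u v ∪ pp (rg N H) H P u v ⊆ univ.filter fun w => T3 H u v w := by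
    intro z hz
    rw [mem_union] at hz
    simp only [mem_filter, mem_univ, true_and]
    rcases hz with hz | hz
    · simp only [aa, mem_filter] at hz
      exact hz.2.1
    · simp only [pp, mem_filter] at hz
      exact hz.2.2.1
  have hcd : ¬ N ≤ cd H u v := by
    intro h
    exact hadj ⟨huv, (hCDR V H hH N u v huv).2 h⟩
  have h3 := card_le_card hsub
  unfold cd at hcd
  omega

theorem hWGT (hCDR : StCDR) (hPNB : StPNB) (hCOV : StCOV) : StWGT := by
  intro U _ G t hB M D ε hε
  set N := sN 2 G with hN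
  have hN0 : (0 : ℝ) < 3 * (N : ℝ) + 3 := by positivity
  set ε₁ : ℝ := ε / (3 * N + 3) with hε₁
  have hε₁0 : 0 < ε₁ := div_pos hε hN0
  obtain ⟨M', hM'⟩ := hCOV ε₁ hε₁0 ε₁ hε₁0
  refine ⟨M', ?_⟩
  filter_upwards [hPNB U G t hB M D ε₁ hε₁0] with n hn H hFr C hC P hP
  set Γ := Γr 2 G H with hΓ
  obtain ⟨R, hR⟩ : ∃ R : Fin n → Fin n → Prop, ∀ u v, R u v ↔ (pp Γ H P u v).Nonempty :=
    ⟨fun u v => (pp Γ H P u v).Nonempty, fun _ _ => Iff.rfl⟩
  obtain ⟨X, hXc, hX⟩ := hM' n R
  refine ⟨X, hXc, ?_⟩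
  have hH3 : ∀ E ∈ H, E.card = 3 := fun E hE => hFr.1 E hE
  -- the functions
  set f : Fin n × Fin n → ℕ := fun q => (aa Γ H C q.1 q.2).card + (pp Γ H P q.1 q.2).card with hf
  have hfN : ∀ q, f q ≤ N := fun q => aa_pp_le hCDR N H hH3 C P q.1 q.2
  set Y := Yy Γ H C P X with hY
  set S1 : Finset (Fin n × Fin n) := univ.filter fun q => 3 ≤ f q with hS1
  have hS1c : (S1.card : ℝ) ≤ ε₁ * (n : ℝ) ^ 2 := hn H hFr C hC P hP
  set S2 : Finset (Fin n × Fin n) := univ.filter fun q =>
    R q.1 q.2 ∧
      ((univ.filter fun u => R u q.2).card : ℝ) < ε₁ * n with hS2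
  set Z : Finset (Fin n) := univ.filter fun v =>
    ε₁ * n ≤ ((univ.filter fun u => R u v).card : ℝ) ∧
      ∀ u ∈ X, ¬ R u v with hZ
  have hZc : (Z.card : ℝ) ≤ ε₁ * n := by
    exact hX
  have hYm : ∀ v, v ∈ Y ↔ (∃ c ∈ C, Γ.Adj c v) ∨ ∃ u ∈ X, ∃ g, P g v ∧ T3 H u v g := by
    intro v
    rw [hY]
    simp only [Yy, mem_filter, mem_univ, true_and]
  have hn0 : (0 : ℝ) ≤ (n : ℝ) := Nat.cast_nonneg n
  -- few pairs in S2
  have hS2c : (S2.card : ℝ) ≤ ε₁ * (n : ℝ) ^ 2 := by
    have h1 : S2.card ≤ ∑ v : Fin n, (S2.filter fun q => q.2 = v).card := by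
      rw [← Finset.card_eq_sum_card_fiberwise (f := fun q : Fin n × Fin n => q.2)
        (s := S2) (t := univ) (fun q _ => mem_coe.2 (mem_univ _))]
    have h2 : ∀ v : Fin n, ((S2.filter fun q => q.2 = v).card : ℝ) ≤ ε₁ * n := by
      intro v
      by_cases hv : ((univ.filter fun u => R u v).card : ℝ) < ε₁ * n
      · refine le_trans ?_ hv.le
        have h3 : (S2.filter fun q => q.2 = v).card ≤
            (univ.filter fun u => R u v).card := by
          refine card_le_card_of_injOn (fun q => q.1) ?_ ?_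
          · intro q hq
            have hq' := mem_coe.1 hq
            rw [mem_filter, hS2, mem_filter] at hq'
            obtain ⟨⟨_, hq1, _⟩, hq2⟩ := hq'
            rw [mem_coe, mem_filter]
            refine ⟨mem_univ _, ?_⟩
            rw [← hq2]
            exact hq1
          · intro q hq q' hq' h
            have h4 := (mem_filter.1 (mem_coe.1 hq)).2
            have h5 := (mem_filter.1 (mem_coe.1 hq')).2
            exact Prod.ext h (h4.trans h5.symm)
        exact_mod_cast h3
      · have h3 : (S2.filter fun q => q.2 = v) = ∅ := by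
          ext q
          simp only [notMem_empty, iff_false]
          intro hq
          rw [mem_filter, hS2, mem_filter] at hq
          obtain ⟨⟨_, _, hq1⟩, hq2⟩ := hq
          rw [hq2] at hq1
          exact hv hq1
        rw [h3]
        simp only [card_empty, Nat.cast_zero]
        positivity
    calc (S2.card : ℝ) ≤ ((∑ v : Fin n, (S2.filter fun q => q.2 = v).card : ℕ) : ℝ) := by
          exact_mod_cast h1
      _ = ∑ v : Fin n, ((S2.filter fun q => q.2 = v).card : ℝ) := by push_cast; rfl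
      _ ≤ ∑ _v : Fin n, ε₁ * n := sum_le_sum fun v _ => h2 v
      _ = ε₁ * (n : ℝ) ^ 2 := by
          rw [sum_const, card_univ, Fintype.card_fin, nsmul_eq_mul]
          ring
  set S3 : Finset (Fin n × Fin n) := univ ×ˢ Z with hS3
  have hS3c : (S3.card : ℝ) ≤ ε₁ * (n : ℝ) ^ 2 := by
    rw [hS3, card_product, card_univ, Fintype.card_fin]
    push_cast
    nlinarith [mul_le_mul_of_nonneg_left hZc hn0]
  set S4 : Finset (Fin n × Fin n) := univ ×ˢ Y with hS4
  -- pointwise bound
  have hpt : ∀ q : Fin n × Fin n, f q ≤ (if q ∈ S4 then 2 else 0) + (if q ∈ S1 then N else 0) +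
      (if q ∈ S2 then N else 0) + (if q ∈ S3 then N else 0) := by
    intro q
    by_cases h1 : q ∈ S1
    · rw [if_pos h1]
      have := hfN q
      omega
    by_cases h2 : q ∈ S2
    · rw [if_pos h2]
      have := hfN q
      omega
    by_cases h3 : q ∈ S3
    · rw [if_pos h3]
      have := hfN q
      omega
    by_cases h4 : q ∈ S4
    · rw [if_pos h4]
      have : ¬ 3 ≤ f q := fun h => h1 (mem_filter.2 ⟨mem_univ _, h⟩)
      omega
    · -- q.2 is not covered
      have hqY : q.2 ∉ Y := fun h => h4 (mem_product.2 ⟨mem_univ _, h⟩)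
      have ha : aa Γ H C q.1 q.2 = ∅ := by
        ext z
        simp only [notMem_empty, iff_false]
        intro hz
        rw [aa, mem_filter] at hz
        exact hqY ((hYm q.2).2 (Or.inl ⟨z, hz.1, hz.2.2.2.1⟩))
      have hX0 : ∀ u ∈ X, ¬ R u q.2 := by
        intro u hu hRu
        obtain ⟨g, hg⟩ := (hR u q.2).1 hRu
        rw [pp, mem_filter] at hg
        exact hqY ((hYm q.2).2 (Or.inr ⟨u, hu, g, hg.2.1, hg.2.2.1⟩))
      have hp : pp Γ H P q.1 q.2 = ∅ := by
        by_contra hne
        have hne' := (hR q.1 q.2).2 (nonempty_iff_ne_empty.2 hne)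
        by_cases h5 : ((univ.filter fun u => R u q.2).card : ℝ) < ε₁ * n
        · exact h2 (mem_filter.2 ⟨mem_univ _, hne', h5⟩)
        · exact h3 (mem_product.2 ⟨mem_univ _, mem_filter.2 ⟨mem_univ _, not_lt.1 h5, hX0⟩⟩)
      have : f q = 0 := by
        rw [hf]
        simp only [ha, hp, card_empty]
      omega
  have hsum : ∑ q : Fin n × Fin n, f q ≤ 2 * S4.card + N * S1.card + N * S2.card + N * S3.card := by
    refine (sum_le_sum fun q _ => hpt q).trans ?_
    rw [sum_add_distrib, sum_add_distrib, sum_add_distrib]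
    have hs : ∀ (S : Finset (Fin n × Fin n)) (c : ℕ),
        ∑ q : Fin n × Fin n, (if q ∈ S then c else 0) = c * S.card := by
      intro S c
      rw [← sum_filter, sum_const, smul_eq_mul, mul_comm]
      congr 2
      ext q
      simp
    rw [hs, hs, hs, hs]
  have hS4c : S4.card = n * Y.card := by
    rw [hS4, card_product, card_univ, Fintype.card_fin]
  have hfin : ((∑ q : Fin n × Fin n, f q : ℕ) : ℝ) ≤
      2 * (n * Y.card) + N * (3 * (ε₁ * (n : ℝ) ^ 2)) := by
    have h1 : ((∑ q : Fin n × Fin n, f q : ℕ) : ℝ) ≤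
        2 * S4.card + N * S1.card + N * S2.card + N * S3.card := by exact_mod_cast hsum
    have h2 : (S4.card : ℝ) = n * Y.card := by exact_mod_cast hS4c
    rw [h2] at h1
    have hN1 : (0 : ℝ) ≤ (N : ℝ) := Nat.cast_nonneg N
    have h3 := mul_le_mul_of_nonneg_left hS1c hN1
    have h4 := mul_le_mul_of_nonneg_left hS2c hN1
    have h5 := mul_le_mul_of_nonneg_left hS3c hN1
    linarith
  refine hfin.trans ?_
  have h6 : N * (3 * (ε₁ * (n : ℝ) ^ 2)) ≤ ε * (n : ℝ) ^ 2 := by
    have h7 : (N : ℝ) * 3 * ε₁ ≤ ε := by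
      rw [hε₁, mul_div_assoc', div_le_iff₀ hN0]
      nlinarith
    have h8 := mul_le_mul_of_nonneg_right h7 (sq_nonneg (n : ℝ))
    calc (N : ℝ) * (3 * (ε₁ * (n : ℝ) ^ 2)) = (N : ℝ) * 3 * ε₁ * (n : ℝ) ^ 2 := by ring
      _ ≤ _ := h8
  linarith

end Pool.Agent.Helper4.KT
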